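import Pool.Agent.H626.SE.Orient

/-!
# MP_0631c5_co: a lower bound for the positive square energy of maximal outerplanar graphs
-/

set_option autoImplicit false

namespace Pool.Agent.Results.MP_0631c5_co.OuterplanarLowerBound

open Pool.Agent.H626.SE

theorem herm {V : Type*} [Fintype V] [DecidableEq V] (G : SimpleGraph V) [DecidableRel G.Adj] :
    (G.adjMatrix ℝ).IsHermitian := by
  rw [Matrix.IsHermitian, Matrix.conjTranspose_eq_transpose_of_trivial]
  exact G.isSymm_adjMatrix

open Classical in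
/-- The eigenvalues of the adjacency matrix of a finite graph, listed with multiplicity. -/
noncomputable def eig {V : Type*} [Fintype V] (G : SimpleGraph V) : V → ℝ :=
  (herm G).eigenvalues

/-- The positive square energy `s⁺`: the sum of the squares of the positive eigenvalues. -/
noncomputable def sPlus {V : Type*} [Fintype V] (G : SimpleGraph V) : ℝ :=
  ∑ i, if 0 < eig G i then eig G i ^ 2 else 0

/-- The negative square energy `s⁻`: the sum of the squares of the negative eigenvalues. -/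
noncomputable def sMinus {V : Type*} [Fintype V] (G : SimpleGraph V) : ℝ :=
  ∑ i, if eig G i < 0 then eig G i ^ 2 else 0

/-- The number of edges with both ends in the vertex set `W`. -/
noncomputable def spanned {V : Type*} (G : SimpleGraph V) (W : Set V) : ℕ :=
  {e | e ∈ G.edgeSet ∧ ∀ v ∈ e, v ∈ W}.ncard

open Classical in
lemma sPlus_eq {V : Type*} [Fintype V] (G : SimpleGraph V) :
    sPlus G = ∑ i, (max ((herm G).eigenvalues i) 0) ^ 2 :=
  sq_plus G (herm G)

open Classical in
lemma sMinus_eq {V : Type*} [Fintype V] (G : SimpleGraph V) :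
    sMinus G = ∑ i, (min ((herm G).eigenvalues i) 0) ^ 2 :=
  sq_minus G (herm G)

lemma total {V : Type*} [Fintype V] (G : SimpleGraph V) :
    sPlus G + sMinus G = 2 * (G.edgeSet.ncard : ℝ) := by
  classical
  rw [sPlus_eq, sMinus_eq, sum_sq, sum_adj, Set.ncard_eq_toFinset_card']
  rfl

/-- the general inequality -/
lemma sparse {V : Type*} [Fintype V] (G : SimpleGraph V) (k : ℕ) (hk : 1 ≤ k)
    (hW : ∀ W : Set V, spanned G W ≤ k * W.ncard) :
    4 * (G.edgeSet.ncard : ℝ) ^ 2 ≤ sPlus G *
      ((3 + 2 * √(k : ℝ)) * G.edgeSet.ncard + k * Fintype.card V) := by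
  classical
  have h1 := orient_bound G (herm G) k hk (fun W => by
    have h2 := hW W
    unfold spanned at h2
    rw [Set.ncard_eq_toFinset_card', Set.ncard_eq_toFinset_card'] at h2
    refine le_trans (le_of_eq ?_) (h2.trans (le_of_eq ?_))
    · congr 1
      ext e
      simp
    · congr 2
      ext v
      simp)
  have h3 : (G.edgeFinset.card : ℝ) = G.edgeSet.ncard := by
    rw [Set.ncard_eq_toFinset_card']
    rfl
  rw [h3] at h1
  rw [sPlus_eq]
  exact h1

/-- Let `G` be a graph with `n ≥ 3` vertices and `2 n - 3` edges in which every vertex set `W` spans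
at most `2 |W|` edges (as in maximal outerplanar graphs).  Then `s⁺ ≥ 1.17 n - 2` and
`s⁻ ≤ 2.83 n - 4`. -/
theorem result {V : Type*} [Fintype V] (G : SimpleGraph V) (n : ℕ) (hn : Fintype.card V = n)
    (hn3 : 3 ≤ n) (hm : G.edgeSet.ncard + 3 = 2 * n)
    (hW : ∀ W : Set V, spanned G W ≤ 2 * W.ncard) :
    1.17 * (n : ℝ) - 2 ≤ sPlus G ∧ sMinus G ≤ 2.83 * (n : ℝ) - 4 := by
  subst hn
  have h1 := sparse G 2 (by norm_num) hW
  have h2 : √(((2 : ℕ) : ℝ)) ≤ 1.4143 := by
    rw [Real.sqrt_le_left (by norm_num)]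
    norm_num
  have hmr : (G.edgeSet.ncard : ℝ) + 3 = 2 * (Fintype.card V : ℝ) := by exact_mod_cast hm
  have hnr : (3 : ℝ) ≤ Fintype.card V := by exact_mod_cast hn3
  have hS : 0 ≤ sPlus G := by
    rw [sPlus_eq]
    exact Finset.sum_nonneg fun i _ => sq_nonneg _
  obtain ⟨N, hN⟩ : ∃ N : ℝ, N = (Fintype.card V : ℝ) := ⟨_, rfl⟩
  rw [← hN] at hnr hmr h1 ⊢
  have e1 : (G.edgeSet.ncard : ℝ) = 2 * N - 3 := by linarith
  have h3 := total G
  have key : 1.17 * N - 2 ≤ sPlus G := by
    rw [e1] at h1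
    have h4 : sPlus G * ((3 + 2 * √(((2 : ℕ) : ℝ))) * (2 * N - 3) + ((2 : ℕ) : ℝ) * N)
        ≤ sPlus G * (5.8286 * (2 * N - 3) + 2 * N) := by
      refine mul_le_mul_of_nonneg_left ?_ hS
      push_cast
      nlinarith
    have h5 := h1.trans h4
    have h6 : (1.17 * N - 2) * (5.8286 * (2 * N - 3) + 2 * N) ≤ 4 * (2 * N - 3) ^ 2 := by
      nlinarith [sq_nonneg (N - 5)]
    exact le_of_mul_le_mul_right (h6.trans h5) (by nlinarith)
  refine ⟨key, ?_⟩
  rw [e1] at h3
  linarith

end Pool.Agent.Results.MP_0631c5_co.OuterplanarLowerBound
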